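import Pool.Agent.R999.Brg

/-!
# Neutral Thomas-Fermi theory: `e - ẽ` is superadditive only in the trivial case `k ≤ 1`

For fixed different nuclear positions the difference `e - ẽ` is a bounded function of the charges
(the interaction of neutral Thomas-Fermi atoms at distance `d` is at most a constant times `d⁻⁷`,
uniformly in the charges), and it is strictly positive as soon as two charges are positive.
A superadditive function with these two properties does not exist.
-/

set_option autoImplicit false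

open MeasureTheory Set Filter Topology Metric
open scoped ENNReal

namespace Pool.Agent.Results.MP_f156ce_mp.NotSA

/-- Three dimensional Euclidean space. -/
abbrev R3 := EuclideanSpace ℝ (Fin 3)

/-- `ρ ≥ 0` and `ρ ∈ L¹ ∩ L^{5/3}`. -/
structure Density (ρ : R3 → ℝ) : Prop where
  nonneg : ∀ x, 0 ≤ ρ x
  integrable : Integrable ρ
  integrable_rpow : Integrable (fun x => ρ x ^ (5/3 : ℝ))

variable {k : ℕ}

/-- The Thomas-Fermi functional `ξ(ρ)` of the configuration with nuclear charges `z` and nuclear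
positions `R`, the nuclear repulsion `U` included. -/
noncomputable def xi (R : Fin k → R3) (z : Fin k → ℝ) (ρ : R3 → ℝ) : ℝ :=
  3/5 * (∫ x, ρ x ^ (5/3 : ℝ)) - (∫ x, (∑ j, z j / ‖x - R j‖) * ρ x) +
    1/2 * (∫ x, ∫ y, ρ x * ρ y / ‖x - y‖) +
    ∑ i, ∑ j ∈ Finset.univ.filter (fun j => i < j), z i * z j / ‖R i - R j‖

/-- The values `ξ(ρ)` of the densities of total charge `∑ z` (neutral case). -/
def energies (R : Fin k → R3) (z : Fin k → ℝ) : Set ℝ :=
  {t | ∃ ρ : R3 → ℝ, Density ρ ∧ ∫ x, ρ x = ∑ j, z j ∧ xi R z ρ = t}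

/-- The neutral Thomas-Fermi energy `e(z)` for the nuclear positions `R`. -/
noncomputable def e (R : Fin k → R3) (z : Fin k → ℝ) : ℝ := sInf (energies R z)

/-- The atomic energy `e^at(t)`: the neutral energy for one nucleus of charge `t`, placed at `0`. -/
noncomputable def eat (t : ℝ) : ℝ := e (k := 1) (fun _ => (0 : R3)) (fun _ => t)

/-- The function `e - ẽ`. -/
noncomputable def D (R : Fin k → R3) (z : Fin k → ℝ) : ℝ := e R z - ∑ j, eat (z j)

/-- The closed orthant `ℝ_+^k`. -/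
def orthant (k : ℕ) : Set (Fin k → ℝ) := {z | ∀ i, 0 ≤ z i}

/-- Superadditivity on `ℝ_+^k`. -/
def SA (f : (Fin k → ℝ) → ℝ) : Prop :=
  ∀ z1 ∈ orthant k, ∀ z2 ∈ orthant k, f z1 + f z2 ≤ f (z1 + z2)

open Pool.Agent.TH791.Cl Pool.Agent.R999.MinP Pool.Agent.R999.Ex

lemma UU_lt (z : Fin k → ℝ) (R : Fin k → R3) :
    UU z R = ∑ i, ∑ j ∈ Finset.univ.filter (fun j => i < j), z i * z j / ‖R i - R j‖ := by
  classical
  set F : Fin k → Fin k → ℝ := fun i j => z i * z j / ‖R i - R j‖ with hF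
  have hsymm : ∀ i j, F i j = F j i := fun i j => by
    simp only [hF]; rw [norm_sub_rev, mul_comm]
  have hdiag : ∀ i, F i i = 0 := fun i => by simp [hF]
  have h1 : ∀ i, ∑ j, F i j = (∑ j ∈ Finset.univ.filter (fun j => i < j), F i j) +
      ∑ j ∈ Finset.univ.filter (fun j => j < i), F i j := by
    intro i
    rw [Finset.sum_filter, Finset.sum_filter, ← Finset.sum_add_distrib]
    refine Finset.sum_congr rfl fun j _ => ?_
    rcases lt_trichotomy i j with h | h | h
    · rw [if_pos h, if_neg (not_lt.2 h.le), add_zero]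
    · subst h; simp [hdiag]
    · rw [if_neg (not_lt.2 h.le), if_pos h, zero_add]
  have h2 : ∑ i, ∑ j ∈ Finset.univ.filter (fun j => j < i), F i j =
      ∑ i, ∑ j ∈ Finset.univ.filter (fun j => i < j), F i j := by
    simp only [Finset.sum_filter]
    rw [Finset.sum_comm]
    refine Finset.sum_congr rfl fun i _ => Finset.sum_congr rfl fun j _ => ?_
    split_ifs
    · exact hsymm _ _
    · rfl
  unfold UU
  change 1/2 * ∑ i, ∑ j, F i j = ∑ i, ∑ j ∈ Finset.univ.filter (fun j => i < j), F i j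
  rw [Finset.sum_congr rfl fun i _ => h1 i, Finset.sum_add_distrib, h2]
  ring

lemma xi_eq (z : Fin k → ℝ) (R : Fin k → R3) (ρ : R3 → ℝ) :
    xi R z ρ = Pool.Agent.R999.TFMin.energy 1 (Vn z R) ρ + UU z R := by
  rw [UU_lt]
  unfold xi Pool.Agent.R999.TFMin.energy Vn
  ring

lemma energies_eq (z : Fin k → ℝ) (R : Fin k → R3) :
    energies R z = {t : ℝ | ∃ σ, Pool.Agent.R999.TFMin.Dens σ ∧ ∫ x, σ x = ∑ j, z j ∧
      Pool.Agent.R999.TFMin.energy 1 (Vn z R) σ + UU z R = t} := by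
  ext t
  constructor
  · rintro ⟨ρ, ⟨a, b, c⟩, d, rfl⟩
    exact ⟨ρ, ⟨a, b, c⟩, d, (xi_eq z R ρ).symm⟩
  · rintro ⟨ρ, ⟨a, b, c⟩, d, rfl⟩
    exact ⟨ρ, ⟨a, b, c⟩, d, xi_eq z R ρ⟩

lemma least_FE {z : Fin k → ℝ} {R : Fin k → R3} {ρ : R3 → ℝ} (h : TFs 1 z R ρ) :
    IsLeast (energies R z) (FE 1 z R ρ) := by
  rw [energies_eq]; exact least one_pos h

lemma e_eq {z : Fin k → ℝ} {R : Fin k → R3} {ρ : R3 → ℝ} (h : TFs 1 z R ρ) :
    e R z = FE 1 z R ρ :=
  (least_FE h).csInf_eq

lemma e_least {z : Fin k → ℝ} (hz : z ∈ orthant k) (R : Fin k → R3) :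
    IsLeast (energies R z) (e R z) := by
  obtain ⟨ρ, hρ⟩ := tf_ex one_pos hz R
  rw [e_eq hρ]; exact least_FE hρ

/-- The energy of one charge of the configuration is the atomic energy. -/
lemma FE_single {z : Fin k → ℝ} (hz : z ∈ orthant k) {R : Fin k → R3} {m : Fin k}
    {ρ : R3 → ℝ} (T : TFs 1 (zS id z {m}) R ρ) : FE 1 (zS id z {m}) R ρ = eat (z m) := by
  classical
  have hs : ∀ F : Fin k → ℝ, ∑ p, zS id z {m} p * F p = z m * F m := by
    intro F
    rw [Finset.sum_eq_single m]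
    · unfold zS; simp
    · intro b _ hb
      unfold zS
      rw [if_neg (by simpa using hb)]
      ring
    · intro h; exact absurd (Finset.mem_univ m) h
  have hz1 : ∀ j : Fin 1, 0 ≤ (fun _ : Fin 1 => z m) j := fun _ => hz m
  obtain ⟨ρ1, T1⟩ := tf_ex one_pos hz1 (fun _ : Fin 1 => (0 : R3))
  have hV : ∀ x, Vn (zS id z {m}) R x =
      Vn (fun _ : Fin 1 => z m) (fun _ : Fin 1 => (0 : R3)) (x - R m) := by
    intro x
    have h := hs (fun p => 1 / ‖x - R p‖)
    unfold Vn
    simp only [mul_one_div] at h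
    rw [h]
    simp
  have hm : ∑ j, zS id z {m} j = ∑ _j : Fin 1, z m := by
    have h := hs (fun _ => 1)
    simpa using h
  have T2 := T1.shift (z' := zS id z {m}) (R' := R) (a := R m) hV hm (fun x hx j _ => by
    have h1 := hx m
    intro h2
    have h2' : x - R m = 0 := h2
    refine h1 ?_ (sub_eq_zero.1 h2')
    unfold zS
    simp only [id, Finset.mem_singleton, if_true]
    assumption)
  have hU : UU (zS id z {m}) R = 0 := by
    unfold UU
    have h1 : ∀ p, ∑ q, zS id z {m} p * zS id z {m} q / ‖R p - R q‖ =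
        zS id z {m} p * (z m * (1 / ‖R p - R m‖)) := by
      intro p
      rw [← hs (fun q => 1 / ‖R p - R q‖), Finset.mul_sum]
      exact Finset.sum_congr rfl fun q _ => by ring
    rw [Finset.sum_congr rfl fun p _ => h1 p, hs (fun p => z m * (1 / ‖R p - R m‖))]
    simp
  have hU1 : UU (fun _ : Fin 1 => z m) (fun _ : Fin 1 => (0 : R3)) = 0 := by
    unfold UU; simp
  rw [T.en_eq one_pos T2]
  unfold eat
  rw [e_eq T1]
  unfold FE
  rw [hU, hU1, En_shift T1.md hV]

/-- A family of Thomas-Fermi densities for all the sub-configurations. -/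
lemma family {z : Fin k → ℝ} (hz : z ∈ orthant k) (R : Fin k → R3) :
    ∃ ρ : Finset (Fin k) → R3 → ℝ, (∀ S, TFs 1 (zS id z S) R (ρ S)) ∧
      D R z = FE 1 (zS id z Finset.univ) R (ρ Finset.univ) -
        ∑ m, FE 1 (zS id z {m}) R (ρ {m}) := by
  classical
  choose ρ T using fun S : Finset (Fin k) => tf_ex one_pos (zS_nonneg (col := id) hz S) R
  refine ⟨ρ, T, ?_⟩
  have e1 : zS (id : Fin k → Fin k) z Finset.univ = z := by
    funext p; unfold zS; simp
  have h1 := T Finset.univ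
  rw [e1] at h1 ⊢
  unfold D
  rw [e_eq h1, Finset.sum_congr rfl fun m _ => FE_single hz (T {m})]

lemma D_trivial (hk : k ≤ 1) {z : Fin k → ℝ} (hz : z ∈ orthant k) (R : Fin k → R3) :
    D R z = 0 := by
  obtain ⟨ρ, T, hD⟩ := family hz R
  rw [hD]
  have hk' : k = 0 ∨ k = 1 := by omega
  rcases hk' with h | h
  · subst h
    have e1 : (Finset.univ : Finset (Fin 0)) = ∅ := rfl
    rw [e1, FE_empty one_pos (T ∅)]
    simp
  · subst h
    have e1 : (Finset.univ : Finset (Fin 1)) = {0} := rfl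
    rw [e1, Finset.sum_singleton, sub_self]

/-- The uniform constant. -/
noncomputable def CC (k : ℕ) : ℝ := k * (Cup 1 k k * 8 ^ 7)

lemma D_upper {z : Fin k → ℝ} (hz : z ∈ orthant k) {R : Fin k → R3} {d : ℝ} (hd : 0 < d)
    (hsep : ∀ i j, i ≠ j → d ≤ ‖R i - R j‖) : D R z ≤ CC k / d ^ 7 := by
  obtain ⟨ρ, T, hD⟩ := family hz R
  have h1 := all_up one_pos hz T (Y := R) (s := d / 8) (by positivity)
    (fun p m _ hpm => by
      have := hsep p m hpm
      linarith)
    (fun p _ => by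
      show ‖R p - R p‖ ≤ _
      rw [sub_self, norm_zero]; positivity) Finset.univ
  rw [Finset.card_univ, Fintype.card_fin] at h1
  have e3 : (k : ℝ) * (Cup 1 k k / (d / 8) ^ 7) = CC k / d ^ 7 := by
    unfold CC; field_simp
  rw [e3] at h1
  rw [hD]
  linarith

lemma D_lower {z : Fin k → ℝ} (hz : z ∈ orthant k) {R : Fin k → R3}
    (hR : Function.Injective R) {a b : Fin k} (hab : b ≠ a) :
    0 ≤ D R z ∧ (0 < z a → 0 < z b → 0 < D R z) := by
  classical
  obtain ⟨ρ, T, hD⟩ := family hz R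
  have ha1 : a ∉ (Finset.univ \ {a, b} : Finset (Fin k)) := by simp
  have hb1 : b ∉ (Finset.univ \ {a, b} : Finset (Fin k)) := by simp
  have h1 := all_lo one_pos (col := id) hz (R := R) (fun p q _ _ hpq h => hpq (hR h)) T hab
    (Finset.univ \ {a, b}) ha1 hb1
  have e1 : insert a (insert b (Finset.univ \ {a, b})) = (Finset.univ : Finset (Fin k)) := by
    ext x
    simp only [Finset.mem_insert, Finset.mem_sdiff, Finset.mem_univ, Finset.mem_singleton,
      true_and, iff_true]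
    tauto
  rw [e1] at h1
  have h2 := gain_nonneg (T {a}).md (T {b}).md
  constructor
  · rw [hD]; linarith
  · intro hza hzb
    have hza' : 0 < zS id z {a} a := by unfold zS; simpa using hza
    have hzb' : 0 < zS id z {b} b := by unfold zS; simpa using hzb
    obtain ⟨ca, hca, La⟩ := (T {a}).dens_ge one_pos (zS_nonneg (col := id) hz {a}) hza'
    obtain ⟨cb, hcb, Lb⟩ := (T {b}).dens_ge one_pos (zS_nonneg (col := id) hz {b}) hzb'
    obtain ⟨q, hq⟩ : ∃ q : R3, ‖q‖ = 2 + ‖R a‖ + ‖R b‖ := exists_norm_eq R3 (by positivity)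
    set B : ℝ := ‖q‖ + ‖R a‖ + ‖R b‖ + 1 with hB
    have hB0 : 0 < B := by positivity
    have hK : 0 < min ca cb / B ^ 6 := by positivity
    have gen : ∀ (m : Fin k) (cm : ℝ), 0 < cm → min ca cb ≤ cm → ‖R m‖ ≤ ‖R a‖ + ‖R b‖ →
        (∀ᵐ x, 1 ≤ ‖x - R m‖ → cm / ‖x - R m‖ ^ 6 ≤ ρ {m} x) →
        ∀ᵐ x, x ∈ ball q 1 → min ca cb / B ^ 6 / 1 ^ 6 ≤ ρ {m} x := by
      intro m cm hcm hmin hmR hL
      filter_upwards [hL] with x hx hxb
      rw [mem_ball, dist_eq_norm] at hxb
      have n1 : ‖q‖ - ‖R m‖ - ‖x - q‖ ≤ ‖x - R m‖ := by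
        have : q = (x - R m) - (x - q) + R m := by abel
        have h3 := norm_add_le ((x - R m) - (x - q)) (R m)
        rw [← this] at h3
        have h4 := norm_sub_le (x - R m) (x - q)
        linarith
      have n2 : ‖x - R m‖ ≤ ‖x - q‖ + ‖q‖ + ‖R m‖ := by
        have : x - R m = (x - q) + q - R m := by abel
        rw [this]
        have h3 := norm_sub_le ((x - q) + q) (R m)
        have h4 := norm_add_le (x - q) q
        linarith
      have n3 : 1 ≤ ‖x - R m‖ := by linarith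
      have n4 : ‖x - R m‖ ≤ B := by rw [hB]; linarith
      refine le_trans ?_ (hx n3)
      have n5 : ‖x - R m‖ ^ 6 ≤ B ^ 6 := pow_le_pow_left₀ (by linarith) n4 6
      rw [one_pow, div_one]
      exact div_le_div₀ hcm.le hmin (by positivity) n5
    have h3 := gen a ca hca (min_le_left _ _) (by have := norm_nonneg (R b); linarith) La
    have h4 := gen b cb hcb (min_le_right _ _) (by have := norm_nonneg (R a); linarith) Lb
    have h5 := gain_lo (T {a}).md (T {b}).md one_pos hK q h3 h4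
    have h6 : 0 < 4/3 * Real.pi * (min ca cb / B ^ 6) ^ (5/3 : ℝ) / 1 ^ 7 := by
      have := Real.pi_pos
      positivity
    rw [hD]
    linarith

lemma exists_sep {R : Fin k → R3} (hR : Function.Injective R) :
    ∃ d : ℝ, 0 < d ∧ ∀ a b, a ≠ b → d ≤ ‖R a - R b‖ := by
  classical
  set T : Finset (Fin k × Fin k) := Finset.univ.filter fun p => p.1 ≠ p.2 with hT
  rcases T.eq_empty_or_nonempty with h0 | hne
  · refine ⟨1, one_pos, fun a b hab => ?_⟩
    have : (a, b) ∈ T := by rw [hT, Finset.mem_filter]; exact ⟨Finset.mem_univ _, hab⟩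
    rw [h0] at this
    simp at this
  · obtain ⟨p, hp, hmin⟩ := Finset.exists_min_image T (fun p => ‖R p.1 - R p.2‖) hne
    rw [hT, Finset.mem_filter] at hp
    refine ⟨‖R p.1 - R p.2‖, norm_pos_iff.2 (sub_ne_zero.2 fun h => hp.2 (hR h)),
      fun a b hab => ?_⟩
    exact hmin (a, b) (by rw [hT, Finset.mem_filter]; exact ⟨Finset.mem_univ _, hab⟩)

lemma smul_mem {z : Fin k → ℝ} (hz : z ∈ orthant k) {t : ℝ} (ht : 0 ≤ t) : t • z ∈ orthant k :=
  fun i => mul_nonneg ht (hz i)

lemma doubling {z : Fin k → ℝ} (hz : z ∈ orthant k) {R : Fin k → R3}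
    (hR : Function.Injective R) {a b : Fin k} (hab : a ≠ b) (ha : 0 < z a) (hb : 0 < z b) :
    ∃ n : ℕ, D R ((2:ℝ) ^ (n + 1) • z) < 2 * D R ((2:ℝ) ^ n • z) := by
  by_contra hcon
  push Not at hcon
  obtain ⟨d, hd, hsep⟩ := exists_sep hR
  have hpos := (D_lower hz hR hab.symm).2 ha hb
  have h1 : ∀ n : ℕ, (2:ℝ) ^ n * D R z ≤ D R ((2:ℝ) ^ n • z) := by
    intro n
    induction n with
    | zero => simp
    | succ n ih =>
      refine le_trans ?_ (hcon n)
      rw [pow_succ]
      linarith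
  have h2 : ∀ n : ℕ, (2:ℝ) ^ n * D R z ≤ CC k / d ^ 7 := fun n =>
    (h1 n).trans (D_upper (smul_mem hz (by positivity)) hd hsep)
  obtain ⟨n, hn⟩ := pow_unbounded_of_one_lt (CC k / d ^ 7 / D R z) (one_lt_two : (1:ℝ) < 2)
  rw [div_lt_iff₀ hpos] at hn
  linarith [h2 n]

/-- **Neutral Thomas-Fermi theory: `e - ẽ` is superadditive if and only if `k ≤ 1`.**
For all `k` and all pairwise different nuclear positions `R`:
the infima defining `e(z)` and `e^at(t)` are attained;
`0 ≤ (e - ẽ)(z) ≤ C_k / d⁷` for all `z ∈ ℝ_+^k`, where `d` is any positive lower bound of the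
distances of the nuclei and `C_k` depends only on `k`;
`(e - ẽ)(z) > 0` if two of the charges are positive;
for every such `z` the superadditivity inequality `f(w) + f(w) ≤ f(2w)` fails for `f = e - ẽ` and
some `w = 2ⁿ z`;
and `e - ẽ` is superadditive on `ℝ_+^k` if and only if `k ≤ 1`. -/
theorem result :
    (∀ t : ℝ, 0 ≤ t →
      IsLeast (energies (k := 1) (fun _ => (0 : R3)) (fun _ => t)) (eat t)) ∧
    ∀ k : ℕ, ∃ C : ℝ, ∀ R : Fin k → R3, Function.Injective R →
      (∀ z ∈ orthant k, IsLeast (energies R z) (e R z)) ∧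
      (∀ z ∈ orthant k, 0 ≤ D R z) ∧
      (∀ d : ℝ, 0 < d → (∀ i j, i ≠ j → d ≤ ‖R i - R j‖) → ∀ z ∈ orthant k, D R z ≤ C / d ^ 7) ∧
      (∀ z ∈ orthant k, ∀ i j, i ≠ j → 0 < z i → 0 < z j → 0 < D R z ∧
        ∃ n : ℕ, D R ((2:ℝ) ^ n • z + (2:ℝ) ^ n • z) <
          D R ((2:ℝ) ^ n • z) + D R ((2:ℝ) ^ n • z)) ∧
      (SA (D R) ↔ k ≤ 1) := by
  refine ⟨fun t ht => e_least (k := 1) (z := fun _ => t) (fun _ => ht) _, fun k => ⟨CC k,
    fun R hR => ?_⟩⟩
  have hdb : ∀ z ∈ orthant k, ∀ i j, i ≠ j → 0 < z i → 0 < z j →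
        ∃ n : ℕ, D R ((2:ℝ) ^ n • z + (2:ℝ) ^ n • z) <
          D R ((2:ℝ) ^ n • z) + D R ((2:ℝ) ^ n • z) := by
    intro z hz i j hij hi hj
    obtain ⟨n, hn⟩ := doubling hz hR hij hi hj
    refine ⟨n, ?_⟩
    rw [← add_smul, ← two_mul, ← two_mul, ← pow_succ']
    exact hn
  refine ⟨fun z hz => e_least hz R, fun z hz => ?_, fun d hd hsep z hz => D_upper hz hd hsep,
    fun z hz i j hij hi hj => ⟨(D_lower hz hR hij.symm).2 hi hj, hdb z hz i j hij hi hj⟩, ?_⟩
  · by_cases hk : k ≤ 1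
    · exact (D_trivial hk hz R).ge
    · have hab : (⟨1, by omega⟩ : Fin k) ≠ ⟨0, by omega⟩ := by
        intro h; simp at h
      exact (D_lower hz hR hab).1
  · constructor
    · intro hSA
      by_contra hk
      have hab : (⟨0, by omega⟩ : Fin k) ≠ ⟨1, by omega⟩ := by
        intro h; simp at h
      have hz : (fun _ => 1 : Fin k → ℝ) ∈ orthant k := fun _ => zero_le_one
      obtain ⟨n, hn⟩ := hdb _ hz _ _ hab one_pos one_pos
      have h1 := smul_mem hz (t := (2:ℝ) ^ n) (by positivity)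
      have h2 := hSA _ h1 _ h1
      linarith
    · intro hk z1 h1 z2 h2
      have h3 : z1 + z2 ∈ orthant k := fun i => add_nonneg (h1 i) (h2 i)
      rw [D_trivial hk h1, D_trivial hk h2, D_trivial hk h3, add_zero]

end Pool.Agent.Results.MP_f156ce_mp.NotSA
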